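import Pool.Agent.H31.Sup2

namespace Pool.Agent.Results.MP_79ff05_co.EdgeSupersat

open Pool.Agent.H31.Sup

/-- `mex_{K_s}(m, K_b)`: the largest number of copies of `K_s` in a finite `K_b`-free graph with
exactly `m` edges. -/
noncomputable def mex (s m b : ℕ) : ℕ :=
  sSup {k | ∃ (n : ℕ) (H : SimpleGraph (Fin n)), H.edgeSet.ncard = m ∧ H.CliqueFree b ∧
    (H.cliqueSet s).ncard = k}

theorem bdd (s m b : ℕ) : BddAbove {k | ∃ (n : ℕ) (H : SimpleGraph (Fin n)), H.edgeSet.ncard = m ∧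
    H.CliqueFree b ∧ (H.cliqueSet (s + 2)).ncard = k} := by
  classical
  refine ⟨(2 * m) ^ (s + 2) + (s + 2) * (2 * m), ?_⟩
  rintro k ⟨n, H, h1, -, rfl⟩
  have a := low H s 1 zero_le_one
  have b := card_high H 1
  have c := cl_le (s + 2) (H.comap (Subtype.val : {v // (1 : ℝ) < dg H v} → Fin n))
  have d := cl_eq (s + 2) H
  rw [dd_eq, h1, mul_one] at b
  rw [dd_eq, h1, one_pow, one_mul] at a
  have b' : Fintype.card {v // (1 : ℝ) < dg H v} ≤ 2 * m := by exact_mod_cast b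
  have a' : cl (s + 2) H ≤ cl (s + 2) (H.comap (Subtype.val : {v // (1 : ℝ) < dg H v} → Fin n)) +
      (s + 2) * (2 * m) := by exact_mod_cast a
  have e := Nat.pow_le_pow_left b' (s + 2)
  have f := Nat.le_mul_of_pos_left (H.cliqueSet (s + 2)).ncard (Nat.factorial_pos (s + 2))
  omega

theorem result (r s : ℕ) (hs : 3 ≤ s) (hrs : s ≤ r) (ε : ℝ) (hε : 0 < ε) :
    ∃ δ : ℝ, 0 < δ ∧ ∃ m₀ : ℕ, ∀ (V : Type) [Finite V] (G : SimpleGraph V) (m : ℕ),
      G.edgeSet.ncard = m → m₀ ≤ m →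
      (mex s m (r + 1) : ℝ) + ε * (m : ℝ) ^ ((s : ℝ) / 2) ≤ (G.cliqueSet s).ncard →
      δ * (m : ℝ) ^ (((r : ℝ) + 1) / 2) ≤ (G.cliqueSet (r + 1)).ncard := by
  classical
  obtain ⟨s', rfl⟩ : ∃ s', s = s' + 2 := ⟨s - 2, by omega⟩
  obtain ⟨a, ha⟩ : ∃ a, r + 1 = a + 3 := ⟨r - 2, by omega⟩
  obtain ⟨c, hc⟩ : ∃ c, r + 1 = s' + 2 + c := ⟨r + 1 - (s' + 2), by omega⟩
  set s := s' + 2 with hsd
  set e := min ε 1 with he
  have e0 : 0 < e := lt_min hε one_pos
  have e1 : e ≤ 1 := min_le_right _ _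
  have e2 : e ≤ ε := min_le_left _ _
  have s3 : (3 : ℝ) ≤ s := by exact_mod_cast hs
  set η := e / (4 * s) with hη
  have η0 : 0 < η := by positivity
  have η1 : η ≤ 1 := by rw [hη, div_le_one (by positivity)]; linarith
  set A := 2 / η with hA
  have A1 : 1 ≤ A := by rw [hA, le_div_iff₀ η0]; linarith
  have As : 1 ≤ A ^ s := one_le_pow₀ A1
  set γ := e / (16 * A ^ s) with hγ
  have γ0 : 0 < γ := by positivity
  have γ1 : γ ≤ 1 := by rw [hγ, div_le_one (by positivity)]; linarith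
  obtain ⟨T, T1, hT⟩ := ex_T s γ γ0
  obtain ⟨q1, h1⟩ := desc_ge s γ γ0
  obtain ⟨q2, h2⟩ := desc_ge (s * 2) (γ / A ^ (s * 2)) (by positivity)
  set q := q1 + q2 + 1 with hq
  have q0 : 0 < q := by omega
  refine ⟨e / 4 * (e / 2) ^ c / (q ^ (r + 1) * (r + 1).factorial), by positivity, T ^ 2 * q ^ 2, ?_⟩
  intro V _ G m hm hm0 hG
  have := Fintype.ofFinite V
  have m0 : 0 < m := lt_of_lt_of_le (by positivity) hm0
  set R := Real.sqrt m with hR
  have R0 : 0 < R := Real.sqrt_pos.2 (by exact_mod_cast m0)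
  have R2 : R ^ 2 = m := Real.sq_sqrt (by positivity)
  have Rp : ∀ k : ℕ, (m : ℝ) ^ ((k : ℝ) / 2) = R ^ k := by
    intro k
    rw [hR, Real.sqrt_eq_rpow, ← Real.rpow_natCast, ← Real.rpow_mul (by positivity)]
    congr 1; ring
  rw [show (r : ℝ) + 1 = ((r + 1 : ℕ) : ℝ) by push_cast; ring, Rp]
  rw [Rp] at hG
  set W : ℝ := s.factorial * mex s m (r + 1) with hW
  have W0 : 0 ≤ W := by positivity
  have hWb : ∀ (U : Type) [Finite U] (H : SimpleGraph U), (∀ y : Fin (r + 1) → U, ¬ Cl H y) →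
      dd H ≤ 2 * m → (cl s H : ℝ) ≤ W := by
    rw [hW, ha]
    intro U _ H g1 g2
    obtain ⟨n, H', k1, k2, k3⟩ := transfer H a s m g1 g2
    have := le_csSup (bdd s' m (a + 3)) ⟨n, H', k1, k2, rfl⟩
    rw [cl_eq s H'] at k3
    exact_mod_cast k3.trans (Nat.mul_le_mul_left _ this)
  have hdd : dd G = 2 * m := by rw [dd_eq, hm]
  let G' := G.comap (Subtype.val : {v // η * R < dg G v} → V)
  set N : ℝ := (Fintype.card {v // η * R < dg G v} : ℝ) with hN
  have N0 : 0 ≤ N := by positivity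
  have hNA : N ≤ A * R := by
    have := card_high G (η * R)
    rw [hdd] at this
    push_cast at this
    rw [← R2, ← hN] at this
    rw [hA, div_mul_eq_mul_div, le_div_iff₀ η0]
    refine le_of_mul_le_mul_right ?_ R0
    linarith
  have hP : W + e / 2 * R ^ s ≤ cl s G' := by
    have l := low G s' (η * R) (by positivity)
    rw [hdd] at l
    push_cast at l
    have f1 : (1 : ℝ) ≤ s.factorial := by exact_mod_cast Nat.factorial_pos s
    have f2 : W + ε * R ^ s ≤ cl s G := by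
      rw [cl_eq]; push_cast
      have t1 := mul_le_mul_of_nonneg_right f1 (show (0 : ℝ) ≤ ε * R ^ s by positivity)
      have t2 := mul_le_mul_of_nonneg_left hG (show (0 : ℝ) ≤ s.factorial by positivity)
      rw [hW]
      linarith
    have f3 : η ^ s' ≤ η := pow_le_of_le_one η0.le η1 (by omega)
    have f4 : ((s' : ℝ) + 2) * ((η * R) ^ s' * (2 * m)) ≤ e / 2 * R ^ s := by
      have : ((s' : ℝ) + 2) = s := by rw [hsd]; push_cast; ring
      rw [this, ← R2, mul_pow]
      calc (s : ℝ) * (η ^ s' * R ^ s' * (2 * R ^ 2)) ≤ s * (η * R ^ s' * (2 * R ^ 2)) := by gcongr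
        _ = (s * η * 2) * R ^ s := by rw [hsd, pow_add]; ring
        _ = _ := by rw [hη]; field_simp; ring
    have f5 : e * R ^ s ≤ ε * R ^ s := by gcongr
    linarith
  have hPN : (cl s G' : ℝ) ≤ N ^ s := by rw [hN]; exact_mod_cast cl_le s G'
  have hPA : (cl s G' : ℝ) ≤ A ^ s * R ^ s := by
    rw [← mul_pow]; exact hPN.trans (by gcongr)
  have Rs : 0 < R ^ s := by positivity
  have hNl : e / 2 * R ≤ N := by
    by_contra hn
    have : N ^ s < (e / 2 * R) ^ s := pow_lt_pow_left₀ (not_le.1 hn) N0 (by omega)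
    have f : (e / 2) ^ s ≤ e / 2 := pow_le_of_le_one (by positivity) (by linarith) (by omega)
    rw [mul_pow] at this
    have := mul_le_mul_of_nonneg_right f Rs.le
    linarith
  have Np : 0 < N := lt_of_lt_of_le (by positivity) hNl
  have hd' : dd G' ≤ 2 * m := by
    rw [← hdd]
    exact Set.ncard_le_ncard_of_injOn (fun p => (p.1.1, p.2.1)) (fun _ h => h)
      (fun p _ p' _ h => by
        simp only [Prod.mk.injEq] at h; exact Prod.ext (Subtype.ext h.1) (Subtype.ext h.2))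
      (Set.toFinite _)
  have main := sample G' (q := q) (s := s) (b := r + 1) (m := m) (T := T) (W := W) (κ := 1 - γ)
    (ν := γ / A ^ (s * 2)) (μ := γ) (by omega) T1 (by omega) q0 (by rw [hN] at Np; exact_mod_cast Np)
    W0 hWb hd' (h1 q (by omega)) (by have := h2 q (by omega); linarith) γ0.le (by
      rw [← hN]
      calc γ / A ^ (s * 2) * N ^ (s * 2) ≤ γ / A ^ (s * 2) * (A * R) ^ (s * 2) := by gcongr
        _ = γ * (R ^ 2) ^ s := by rw [mul_pow, ← pow_mul, mul_comm 2 s]; field_simp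
        _ ≤ _ := by rw [R2]; gcongr; have : (0 : ℝ) ≤ m := by positivity
                    linarith)
  rw [← hN] at main
  have g1 : (1 + 1 / (T : ℝ)) ^ s * W * (1 + γ) ≤ (1 + 3 * γ) * W := by
    calc _ ≤ (1 + γ) * W * (1 + γ) := by gcongr
      _ = (1 + 2 * γ + γ * γ) * W := by ring
      _ ≤ _ := mul_le_mul_of_nonneg_right
          (by have := mul_le_mul_of_nonneg_left γ1 γ0.le; linarith) W0
  have g2 : γ * (A ^ s * R ^ s) = e / 16 * R ^ s := by rw [hγ]; field_simp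
  have g3 : e / 4 * R ^ s ≤ (1 - γ) * cl s G' - (1 + 3 * γ) * W := by
    have t0 : 0 ≤ e / 2 * R ^ s := by positivity
    have t1 : W ≤ A ^ s * R ^ s := by linarith
    have t2 := mul_le_mul_of_nonneg_left t1 γ0.le
    have t3 := mul_le_mul_of_nonneg_left hPA γ0.le
    linarith
  have g4 : e / 4 * R ^ s * N ^ (r + 1) ≤ q ^ (r + 1) * cl (r + 1) G' * N ^ s := by
    have := mul_le_mul_of_nonneg_right g1 (show 0 ≤ N ^ (r + 1) by positivity)
    have := mul_le_mul_of_nonneg_right g3 (show 0 ≤ N ^ (r + 1) by positivity)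
    linarith
  have g5 : e / 4 * R ^ s * N ^ c ≤ q ^ (r + 1) * cl (r + 1) G' := by
    refine le_of_mul_le_mul_right ?_ (show 0 < N ^ s by positivity)
    calc _ = e / 4 * R ^ s * N ^ (r + 1) := by rw [hc, pow_add]; ring
      _ ≤ _ := g4
  have g6 : (cl (r + 1) G' : ℝ) ≤ (r + 1).factorial * (G.cliqueSet (r + 1)).ncard := by
    have : cl (r + 1) G' ≤ cl (r + 1) G :=
      Set.ncard_le_ncard_of_injOn (fun y => Subtype.val ∘ y) (fun _ h => h)
        (fun _ _ _ _ h => Subtype.val_injective.comp_left h) (Set.toFinite _)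
    rw [cl_eq _ G] at this
    exact_mod_cast this
  rw [div_mul_eq_mul_div, div_le_iff₀ (by positivity)]
  calc e / 4 * (e / 2) ^ c * R ^ (r + 1) = e / 4 * R ^ s * (e / 2 * R) ^ c := by
        rw [hc, pow_add, mul_pow]; ring
    _ ≤ e / 4 * R ^ s * N ^ c := by gcongr
    _ ≤ q ^ (r + 1) * ((r + 1).factorial * (G.cliqueSet (r + 1)).ncard) := g5.trans (by gcongr)
    _ = _ := by ring

end Pool.Agent.Results.MP_79ff05_co.EdgeSupersat
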